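import Pool.Agent.R801.EN.Anal

/-!
# `MP_e2735d_co`: the limiting set is the whole interval `[0, 1]`

The limit points of `|Aut(G)| / |End_s(G)|` over graphs (loops permitted) with `|G| → ∞` are
exactly the real numbers in `[0, 1]`.
-/

namespace Pool.Agent.Results.MP_e2735d_co.LimitSet

open Pool.Agent.R801.EN

theorem result : Lam = Set.Icc (0 : ℝ) 1 := Lam_eq

end Pool.Agent.Results.MP_e2735d_co.LimitSet
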